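import Mathlib

/-!
# Sequences of units which are linearly independent along an ultrafilter: gradings and deformations
-/

set_option autoImplicit false

open Filter Finset

namespace Pool.Agent.D0H59.UB

variable {K : Type} [Field K]

/-- No two of the sequences in `𝒢` being proportional, finitely many of them are linearly independent,
along the ultrafilter `U`. -/
def Ind (U : Ultrafilter ℕ) (𝒢 : Subgroup (ℕ → Kˣ)) : Prop :=
  ∀ (ι : Type) [Fintype ι] (g : ι → ℕ → Kˣ), (∀ i, g i ∈ 𝒢) →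
    (∀ i j, i ≠ j → ∀ c : K, ¬ ∀ᶠ m in (U : Filter ℕ), (g i m : K) = c * g j m) →
    ∀ c : ι → K, (∀ᶠ m in (U : Filter ℕ), ∑ i, c i * (g i m : K) = 0) → c = 0

/-- vanishing sums split -/
theorem graded (U : Ultrafilter ℕ) (𝒢 : Subgroup (ℕ → Kˣ)) (hI : Ind U 𝒢) {ι : Type} [Fintype ι]
    (u : ι → ℕ → Kˣ) (hu : ∀ i, u i ∈ 𝒢) (c : ι → K) (ℓ : ι → ℤ)
    (hℓ : ∀ i j, (∃ a : K, ∀ᶠ m in (U : Filter ℕ), (u i m : K) = a * u j m) → ℓ i = ℓ j)
    (h0 : ∀ᶠ m in (U : Filter ℕ), ∑ i, c i * (u i m : K) = 0) :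
    ∀ᶠ m in (U : Filter ℕ), ∀ k : ℤ, ∑ i with ℓ i = k, c i * (u i m : K) = 0 := by
  classical
  let S : Setoid ι :=
    { r := fun i j => ∃ a : K, ∀ᶠ m in (U : Filter ℕ), (u i m : K) = a * u j m
      iseqv := by
        refine ⟨fun i => ⟨1, Filter.Eventually.of_forall fun m => (one_mul _).symm⟩, ?_, ?_⟩
        · rintro i j ⟨a, ha⟩
          have ha0 : a ≠ 0 := by
            rintro rfl
            obtain ⟨m, hm⟩ := ha.exists
            rw [zero_mul] at hm
            exact (u i m).ne_zero hm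
          refine ⟨a⁻¹, ?_⟩
          filter_upwards [ha] with m hm
          rw [hm, ← mul_assoc, inv_mul_cancel₀ ha0, one_mul]
        · rintro i j k ⟨a, ha⟩ ⟨b, hb⟩
          refine ⟨a * b, ?_⟩
          filter_upwards [ha, hb] with m h1 h2
          rw [h1, h2, mul_assoc] }
  let Q := Quotient S
  have hrel : ∀ i : ι, ∃ a : K, ∀ᶠ m in (U : Filter ℕ),
      (u i m : K) = a * u (Quotient.mk S i).out m := fun i =>
    Setoid.symm (Quotient.mk_out (s := S) i)
  choose a ha using hrel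
  have haAll : ∀ᶠ m in (U : Filter ℕ), ∀ i, (u i m : K) = a i * u (Quotient.mk S i).out m := by
    rw [Filter.eventually_all]
    exact ha
  set b : Q → K := fun q => ∑ i with Quotient.mk S i = q, c i * a i with hb
  have hsum : ∀ᶠ m in (U : Filter ℕ), ∑ q : Q, b q * (u q.out m : K) = 0 := by
    filter_upwards [h0, haAll] with m h1 h2
    rw [← h1]
    rw [← Finset.sum_fiberwise (s := Finset.univ) (g := fun i => Quotient.mk S i)]
    refine Finset.sum_congr rfl fun q _ => ?_
    rw [hb, Finset.sum_mul]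
    refine Finset.sum_congr rfl fun i hi => ?_
    have h3 := (Finset.mem_filter.1 hi).2
    rw [h2 i, h3]
    ring
  have hzero : b = 0 := by
    refine hI Q (fun q => u q.out) (fun q => hu _) ?_ b hsum
    intro q q' hqq c' hc'
    apply hqq
    rw [← Quotient.out_eq q, ← Quotient.out_eq q']
    exact Quotient.sound ⟨c', hc'⟩
  filter_upwards [haAll] with m hm k
  rw [← Finset.sum_fiberwise (s := Finset.univ.filter fun i => ℓ i = k)
    (g := fun i => Quotient.mk S i)]
  refine Finset.sum_eq_zero fun q _ => ?_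
  by_cases hq : ℓ q.out = k
  · have h1 : (Finset.univ.filter fun i => ℓ i = k).filter (fun i => Quotient.mk S i = q) =
        Finset.univ.filter fun i => Quotient.mk S i = q := by
      ext i
      simp only [Finset.mem_filter, Finset.mem_univ, true_and]
      constructor
      · exact fun h => h.2
      · intro h
        refine ⟨?_, h⟩
        rw [← hq, ← h]
        exact hℓ _ _ ⟨a i, ha i⟩
    rw [h1]
    have h2 : ∑ i with Quotient.mk S i = q, c i * (u i m : K) = b q * (u q.out m : K) := by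
      rw [hb, Finset.sum_mul]
      refine Finset.sum_congr rfl fun i hi => ?_
      have h3 := (Finset.mem_filter.1 hi).2
      rw [hm i, h3]
      ring
    rw [h2, hzero]
    simp
  · refine Finset.sum_eq_zero fun i hi => ?_
    exfalso
    apply hq
    have h1 := Finset.mem_filter.1 hi
    rw [← (Finset.mem_filter.1 h1.1).2, ← h1.2]
    exact (hℓ _ _ ⟨a i, ha i⟩).symm

lemma exists_hom {Q : Type} [AddCommGroup Q] (w : Q) (h : ∀ n : ℕ, 1 ≤ n → n • w ≠ 0) :
    ∃ μ : Q →+ ℚ, μ w = 1 := by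
  have hinj : Function.Injective (zmultiplesHom Q w) := by
    rw [injective_iff_map_eq_zero]
    intro n hn
    rw [zmultiplesHom_apply] at hn
    by_contra h0
    rcases lt_or_gt_of_ne h0 with h1 | h1
    · apply h n.natAbs (by omega)
      have h2 : n = -(n.natAbs : ℤ) := by omega
      rw [h2, neg_smul, natCast_zsmul, neg_eq_zero] at hn
      exact hn
    · apply h n.natAbs (by omega)
      have h2 : n = (n.natAbs : ℤ) := by omega
      rw [h2, natCast_zsmul] at hn
      exact hn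
  obtain ⟨μ, hμ⟩ := (Module.Baer.of_divisible ℚ).extension_property_addMonoidHom
    (zmultiplesHom Q w) hinj (Int.castAddHom ℚ)
  refine ⟨μ, ?_⟩
  have := DFunLike.congr_fun hμ 1
  simpa using this

/-- `w` is, up to a power and a constant, in the group generated by `s` -/
def Tors (U : Ultrafilter ℕ) (s : Set (ℕ → Kˣ)) (w : ℕ → Kˣ) : Prop :=
  ∃ n : ℕ, 1 ≤ n ∧ ∃ y ∈ Subgroup.closure s, ∃ a : Kˣ, ∀ᶠ m in (U : Filter ℕ), w m ^ n = a * y m

/-- a homomorphism to the rational numbers -/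
lemma exists_weight (U : Ultrafilter ℕ) (s : Set (ℕ → Kˣ)) (w : ℕ → Kˣ) (h : ¬ Tors U s w) :
    ∃ L : (ℕ → Kˣ) → ℚ, (∀ x y, L (x * y) = L x + L y) ∧ L w = 1 ∧ (∀ y ∈ s, L y = 0) ∧
      ∀ y : ℕ → Kˣ, (∃ a : Kˣ, ∀ᶠ m in (U : Filter ℕ), y m = a) → L y = 0 := by
  let C : Subgroup (ℕ → Kˣ) :=
    { carrier := {y | ∃ a : Kˣ, ∀ᶠ m in (U : Filter ℕ), y m = a}
      mul_mem' := by
        rintro x y ⟨a, ha⟩ ⟨b, hb⟩
        refine ⟨a * b, ?_⟩
        filter_upwards [ha, hb] with m h1 h2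
        rw [Pi.mul_apply, h1, h2]
      one_mem' := ⟨1, Filter.Eventually.of_forall fun m => rfl⟩
      inv_mem' := by
        rintro x ⟨a, ha⟩
        refine ⟨a⁻¹, ?_⟩
        filter_upwards [ha] with m h1
        rw [Pi.inv_apply, h1] }
  set N : Subgroup (ℕ → Kˣ) := Subgroup.closure s ⊔ C with hN
  obtain ⟨μ, hμ⟩ := exists_hom (Q := Additive ((ℕ → Kˣ) ⧸ N))
    (Additive.ofMul (QuotientGroup.mk w)) (by
      intro n hn h0
      apply h
      rw [← ofMul_pow, ← QuotientGroup.mk_pow, ofMul_eq_zero, QuotientGroup.eq_one_iff, hN,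
        Subgroup.mem_sup] at h0
      obtain ⟨y, hy, z, ⟨a, ha⟩, hyz⟩ := h0
      refine ⟨n, hn, y, hy, a, ?_⟩
      filter_upwards [ha] with m hm
      have := congrFun hyz m
      rw [Pi.mul_apply, Pi.pow_apply] at this
      rw [← this, hm, mul_comm])
  have hzero : ∀ x : ℕ → Kˣ, x ∈ N → μ (Additive.ofMul (QuotientGroup.mk x)) = 0 := by
    intro x hx
    have : (QuotientGroup.mk x : (ℕ → Kˣ) ⧸ N) = 1 := (QuotientGroup.eq_one_iff x).2 hx
    rw [this, ofMul_one, map_zero]
  refine ⟨fun x => μ (Additive.ofMul (QuotientGroup.mk x)), ?_, hμ, ?_, ?_⟩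
  · intro x y
    beta_reduce
    rw [QuotientGroup.mk_mul, ofMul_mul, map_add]
  · intro y hy
    exact hzero y ((le_sup_left : Subgroup.closure s ≤ N) (Subgroup.subset_closure hy))
  · intro y hy
    exact hzero y ((le_sup_right : C ≤ N) hy)

/-- the values of a weight on a monomial -/
lemma weight_prod {σ : Type} [Fintype σ] (L : (ℕ → Kˣ) → ℚ) (hL : ∀ x y, L (x * y) = L x + L y)
    (v : σ → ℕ → Kˣ) (e : σ → ℕ) : L (∏ i, v i ^ e i) = ∑ i, (e i : ℚ) * L (v i) := by
  classical
  have h1 : L 1 = 0 := by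
    have := hL 1 1
    rw [one_mul] at this
    linarith
  have hpow : ∀ (x : ℕ → Kˣ) (n : ℕ), L (x ^ n) = n * L x := by
    intro x n
    induction n with
    | zero => rw [pow_zero, h1, Nat.cast_zero, zero_mul]
    | succ n ih => rw [pow_succ, hL, ih]; push_cast; ring
  have hprod : ∀ s : Finset σ, L (∏ i ∈ s, v i ^ e i) = ∑ i ∈ s, (e i : ℚ) * L (v i) := by
    intro s
    induction s using Finset.induction_on with
    | empty => rw [Finset.prod_empty, Finset.sum_empty, h1]
    | insert i s hi ih => rw [Finset.prod_insert hi, Finset.sum_insert hi, hL, ih, hpow]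
  exact hprod Finset.univ

/-- the deformation -/
theorem deform (U : Ultrafilter ℕ) (𝒢 : Subgroup (ℕ → Kˣ)) (hI : Ind U 𝒢) {σ : Type} [Fintype σ]
    (v : σ → ℕ → Kˣ) (hv : ∀ i, v i ∈ 𝒢) (L : (ℕ → Kˣ) → ℚ) (hL : ∀ x y, L (x * y) = L x + L y)
    (hLc : ∀ y : ℕ → Kˣ, (∃ a : Kˣ, ∀ᶠ m in (U : Filter ℕ), y m = a) → L y = 0)
    (D : ℚ) (n : σ → ℤ) (hn : ∀ i, (n i : ℚ) = D * L (v i)) (f : MvPolynomial σ ℤ)
    (h0 : ∀ᶠ m in (U : Filter ℕ), MvPolynomial.aeval (fun i => (v i m : K)) f = 0) :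
    ∀ᶠ m in (U : Filter ℕ),
      MvPolynomial.aeval (fun i => RatFunc.C (v i m : K) * RatFunc.X ^ (n i)) f = 0 := by
  classical
  set u : f.support → ℕ → Kˣ := fun e => ∏ i, v i ^ (e.1 i) with hu
  have hum : ∀ (e : f.support) (m : ℕ), (u e m : K) = ∏ i, (v i m : K) ^ (e.1 i) := by
    intro e m
    rw [hu]
    simp only [Finset.prod_apply, Pi.pow_apply]
    rw [Units.coe_prod]
    refine Finset.prod_congr rfl fun i _ => ?_
    rw [Units.val_pow_eq_pow_val]
  have hLu : ∀ e : f.support, ((∑ i, (e.1 i : ℤ) * n i : ℤ) : ℚ) = D * L (u e) := by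
    intro e
    rw [hu]
    simp only
    rw [weight_prod L hL, Finset.mul_sum]
    push_cast
    refine Finset.sum_congr rfl fun i _ => ?_
    rw [hn]
    ring
  have hgr := graded U 𝒢 hI (ι := f.support) u
    (fun e => Subgroup.prod_mem _ fun i _ => Subgroup.pow_mem _ (hv i) _)
    (fun e => ((f.coeff e.1 : ℤ) : K)) (fun e => ∑ i, (e.1 i : ℤ) * n i) (by
      rintro e e' ⟨a, ha⟩
      have ha0 : a ≠ 0 := by
        rintro rfl
        obtain ⟨m, hm⟩ := ha.exists
        rw [zero_mul] at hm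
        exact (u e m).ne_zero hm
      have h1 : L (u e) = L (u e') := by
        have h2 := hL (u e * (u e')⁻¹) (u e')
        rw [inv_mul_cancel_right] at h2
        rw [h2, hLc (u e * (u e')⁻¹) ⟨Units.mk0 a ha0, ?_⟩, zero_add]
        filter_upwards [ha] with m hm
        rw [Pi.mul_apply, Pi.inv_apply, mul_inv_eq_iff_eq_mul]
        ext
        rw [Units.val_mul, Units.val_mk0]
        exact hm
      have h2 : ((∑ i, (e.1 i : ℤ) * n i : ℤ) : ℚ) = ((∑ i, (e'.1 i : ℤ) * n i : ℤ) : ℚ) := by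
        rw [hLu, hLu, h1]
      exact_mod_cast h2) (by
      filter_upwards [h0] with m hm
      rw [MvPolynomial.aeval_def, MvPolynomial.eval₂_eq'] at hm
      rw [← hm, ← Finset.sum_coe_sort f.support]
      refine Finset.sum_congr rfl fun e _ => ?_
      rw [hum]
      simp)
  filter_upwards [hgr] with m hm
  rw [MvPolynomial.aeval_def, MvPolynomial.eval₂_eq', ← Finset.sum_coe_sort f.support]
  have hterm : ∀ e : f.support, (algebraMap ℤ (RatFunc K)) (f.coeff e.1) *
      ∏ i, (RatFunc.C (v i m : K) * RatFunc.X ^ (n i)) ^ (e.1 i) =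
      RatFunc.C (((f.coeff e.1 : ℤ) : K) * (u e m : K)) *
        RatFunc.X ^ (∑ i, (e.1 i : ℤ) * n i) := by
    intro e
    rw [hum, map_mul, map_prod]
    have h1 : ∀ i, (RatFunc.C (v i m : K) * (RatFunc.X : RatFunc K) ^ (n i)) ^ (e.1 i) =
        RatFunc.C ((v i m : K) ^ (e.1 i)) * RatFunc.X ^ ((e.1 i : ℤ) * n i) := by
      intro i
      rw [mul_pow, map_pow, ← zpow_natCast (RatFunc.X ^ (n i) : RatFunc K), ← zpow_mul,
        mul_comm (n i)]
    simp only [h1]
    rw [Finset.prod_mul_distrib]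
    have h2 : ∀ s : Finset σ, ∏ i ∈ s, (RatFunc.X : RatFunc K) ^ ((e.1 i : ℤ) * n i) =
        RatFunc.X ^ (∑ i ∈ s, (e.1 i : ℤ) * n i) := by
      intro s
      induction s using Finset.induction_on with
      | empty => simp
      | insert i s hi ih =>
        rw [Finset.prod_insert hi, Finset.sum_insert hi, ih, zpow_add₀ RatFunc.X_ne_zero]
    rw [h2]
    simp only [eq_intCast, map_intCast]
    ring
  simp only [hterm]
  rw [← Finset.sum_fiberwise_of_maps_to (s := (Finset.univ : Finset f.support))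
    (t := Finset.univ.image fun e : f.support => ∑ i, (e.1 i : ℤ) * n i)
    (g := fun e : f.support => ∑ i, (e.1 i : ℤ) * n i)
    (fun e _ => Finset.mem_image_of_mem _ (Finset.mem_univ e))]
  refine Finset.sum_eq_zero fun k _ => ?_
  have h1 : ∑ e : f.support with (∑ i, (e.1 i : ℤ) * n i) = k,
      RatFunc.C (((f.coeff e.1 : ℤ) : K) * (u e m : K)) *
        (RatFunc.X : RatFunc K) ^ (∑ i, (e.1 i : ℤ) * n i) =
      RatFunc.C (∑ e : f.support with (∑ i, (e.1 i : ℤ) * n i) = k,
        ((f.coeff e.1 : ℤ) : K) * (u e m : K)) * RatFunc.X ^ k := by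
    rw [map_sum, Finset.sum_mul]
    refine Finset.sum_congr rfl fun e he => ?_
    rw [(Finset.mem_filter.1 he).2]
  rw [h1, hm k, map_zero, zero_mul]

end Pool.Agent.D0H59.UB
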