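import Mathlib
import Pool.Agent.D0H59.UB.Core

/-!
# Monomials, short sums, bordered determinants
-/

set_option autoImplicit false

open Filter Finset

namespace Pool.Agent.D0H59.UB

/-- All polynomial parametrisations of points of the projective variety given by `FF` are constant. -/
def NoCurve {K : Type} [Field K] {n : ℕ} (FF : Set (MvPolynomial (Fin (n + 1)) K)) : Prop :=
  ∀ p : Fin (n + 1) → Polynomial K, (∀ F ∈ FF, MvPolynomial.aeval p F = 0) →
    ∃ (c : Fin (n + 1) → K) (h : Polynomial K), ∀ i, p i = Polynomial.C (c i) * h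

/-- The point with the homogeneous coordinates `x` lies on a nonconstant rational curve `t ↦ p(t)` over
`K` which is contained in the projective variety given by `FF`. -/
def OnCurve {K : Type} [Field K] {n : ℕ} (FF : Set (MvPolynomial (Fin (n + 1)) K))
    (x : Fin (n + 1) → K) : Prop :=
  ∃ p : Fin (n + 1) → Polynomial K, (∀ F ∈ FF, MvPolynomial.aeval p F = 0) ∧
    (∀ i, (p i).eval 1 = x i) ∧
    ¬ ∃ (c : Fin (n + 1) → K) (h : Polynomial K), ∀ i, p i = Polynomial.C (c i) * h

lemma NoCurve.not_onCurve {K : Type} [Field K] {n : ℕ}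
    {FF : Set (MvPolynomial (Fin (n + 1)) K)} (h : NoCurve FF) (x : Fin (n + 1) → K) :
    ¬ OnCurve FF x := fun ⟨p, hp, _, hnc⟩ => hnc (h p hp)

/-- exponents of monomials of degree `d` -/
abbrev Mon (n d : ℕ) : Type := ↥((Finset.univ : Finset (Fin (n + 1))).finsuppAntidiag d)

/-- the values of the monomials -/
def mv {n d : ℕ} {R : Type} [CommRing R] (x : Fin (n + 1) → R) (s : Mon n d) : R :=
  ∏ i, x i ^ (s.1 i)

lemma mv_smul {n d : ℕ} {R : Type} [CommRing R] (c : R) (x : Fin (n + 1) → R) (s : Mon n d) :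
    mv (fun i => c * x i) s = c ^ d * mv x s := by
  unfold mv
  have h1 := (Finset.mem_finsuppAntidiag.1 s.2).1
  simp only [mul_pow]
  rw [Finset.prod_mul_distrib, Finset.prod_pow_eq_pow_sum, h1]

lemma mv_map {n d : ℕ} {R R' : Type} [CommRing R] [CommRing R'] (φ : R →+* R')
    (x : Fin (n + 1) → R) (s : Mon n d) : φ (mv x s) = mv (fun i => φ (x i)) s := by
  unfold mv
  rw [map_prod]
  refine Finset.prod_congr rfl fun i _ => ?_
  rw [map_pow]

lemma aeval_eq {K : Type} [Field K] {n d : ℕ} {R : Type} [CommRing R] [Algebra K R]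
    (F : MvPolynomial (Fin (n + 1)) K) (hF : F.IsHomogeneous d) (x : Fin (n + 1) → R) :
    MvPolynomial.aeval x F = ∑ s : Mon n d, algebraMap K R (F.coeff s.1) * mv x s := by
  rw [MvPolynomial.aeval_def, MvPolynomial.eval₂_eq']
  unfold mv
  rw [Finset.sum_coe_sort ((Finset.univ : Finset (Fin (n + 1))).finsuppAntidiag d)
    (fun s => algebraMap K R (F.coeff s) * ∏ i, x i ^ (s i))]
  refine Finset.sum_subset ?_ ?_
  · intro s hs
    rw [Finset.mem_finsuppAntidiag]
    refine ⟨?_, Finset.subset_univ _⟩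
    by_contra hne
    have h1 : F.coeff s = 0 := by
      apply hF.coeff_eq_zero
      rwa [Finsupp.degree_eq_sum]
    exact (MvPolynomial.mem_support_iff.1 hs) h1
  · intro s _ hs
    rw [MvPolynomial.notMem_support_iff.1 hs, map_zero, zero_mul]

lemma OnCurve.smul {K : Type} [Field K] {n d : ℕ} {FF : Set (MvPolynomial (Fin (n + 1)) K)}
    (hF : ∀ F ∈ FF, F.IsHomogeneous d) {x : Fin (n + 1) → K} {c : K} (hc : c ≠ 0)
    (h : OnCurve FF (fun i => c * x i)) : OnCurve FF x := by
  obtain ⟨p, hp, hx, hnc⟩ := h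
  refine ⟨fun i => Polynomial.C c⁻¹ * p i, ?_, ?_, ?_⟩
  · intro F hFF
    have h1 := hp F hFF
    rw [aeval_eq F (hF F hFF)] at h1 ⊢
    simp only [mv_smul]
    calc ∑ s : Mon n d, algebraMap K (Polynomial K) (F.coeff s.1) *
          (Polynomial.C c⁻¹ ^ d * mv p s) =
        Polynomial.C c⁻¹ ^ d * ∑ s : Mon n d, algebraMap K (Polynomial K) (F.coeff s.1) * mv p s := by
          rw [Finset.mul_sum]
          exact Finset.sum_congr rfl fun s _ => by ring
      _ = 0 := by rw [h1, mul_zero]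
  · intro i
    rw [Polynomial.eval_mul, Polynomial.eval_C, hx i, ← mul_assoc, inv_mul_cancel₀ hc, one_mul]
  · rintro ⟨c', q, hq⟩
    apply hnc
    refine ⟨fun i => c * c' i, q, fun i => ?_⟩
    have h1 := hq i
    rw [Polynomial.C_mul, mul_assoc, ← h1, ← mul_assoc, ← Polynomial.C_mul, mul_inv_cancel₀ hc,
      Polynomial.C_1, one_mul]

/-- short sums -/
def vc {n N : ℕ} {R : Type} [CommRing R] (T : Finset (Fin (n + 1) × Fin N))
    (w : Fin (n + 1) × Fin N → R) (i : Fin (n + 1)) : R := ∑ j, if (i, j) ∈ T then w (i, j) else 0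

lemma vc_map {n N : ℕ} {R R' : Type} [CommRing R] [CommRing R'] (φ : R →+* R')
    (T : Finset (Fin (n + 1) × Fin N)) (w : Fin (n + 1) × Fin N → R) (i : Fin (n + 1)) :
    φ (vc T w i) = vc T (fun τ => φ (w τ)) i := by
  unfold vc
  rw [map_sum]
  refine Finset.sum_congr rfl fun j _ => ?_
  split_ifs
  · rfl
  · exact map_zero φ

lemma vc_smul {n N : ℕ} {R : Type} [CommRing R] (c : R)
    (T : Finset (Fin (n + 1) × Fin N)) (w : Fin (n + 1) × Fin N → R) (i : Fin (n + 1)) :
    vc T (fun τ => c * w τ) i = c * vc T w i := by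
  unfold vc
  rw [Finset.mul_sum]
  refine Finset.sum_congr rfl fun j _ => ?_
  split_ifs
  · rfl
  · rw [mul_zero]

lemma vc_sdiff {n N : ℕ} {R : Type} [CommRing R] [DecidableEq (Fin (n + 1) × Fin N)]
    (T T' : Finset (Fin (n + 1) × Fin N)) (hT : T' ⊆ T)
    (w : Fin (n + 1) × Fin N → R) (i : Fin (n + 1)) :
    vc (T \ T') w i = vc T w i - vc T' w i := by
  unfold vc
  rw [← Finset.sum_sub_distrib]
  refine Finset.sum_congr rfl fun j _ => ?_
  by_cases h1 : (i, j) ∈ T
  · by_cases h2 : (i, j) ∈ T'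
    · simp [h1, h2]
    · simp [h1, h2]
  · have h2 : (i, j) ∉ T' := fun h => h1 (hT h)
    simp [h1, h2]

lemma vc_empty {n N : ℕ} {R : Type} [CommRing R] (w : Fin (n + 1) × Fin N → R)
    (i : Fin (n + 1)) : vc ∅ w i = 0 := by
  unfold vc
  simp

lemma vc_congr {n N : ℕ} {R : Type} [CommRing R] (T : Finset (Fin (n + 1) × Fin N))
    (w w' : Fin (n + 1) × Fin N → R) (h : ∀ τ ∈ T, w τ = w' τ) (i : Fin (n + 1)) :
    vc T w i = vc T w' i := by
  unfold vc
  refine Finset.sum_congr rfl fun j _ => ?_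
  split_ifs with h1
  · exact h _ h1
  · rfl

/-- coefficients of deformed short sums -/
lemma vc_coeff {n N : ℕ} {K : Type} [Field K] (T : Finset (Fin (n + 1) × Fin N))
    (w : Fin (n + 1) × Fin N → K) (e : Fin (n + 1) × Fin N → ℕ) (k : ℕ) (i : Fin (n + 1)) :
    (vc T (fun τ => Polynomial.C (w τ) * Polynomial.X ^ (e τ)) i).coeff k =
      vc (T.filter fun τ => e τ = k) w i := by
  unfold vc
  rw [Polynomial.finsetSum_coeff]
  refine Finset.sum_congr rfl fun j _ => ?_
  by_cases h1 : (i, j) ∈ T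
  · by_cases h2 : e (i, j) = k
    · simp [h1, h2, Polynomial.coeff_X_pow]
    · simp [h1, h2, Polynomial.coeff_X_pow, Ne.symm h2]
  · simp [h1]

lemma vc_eval {n N : ℕ} {K : Type} [Field K] (T : Finset (Fin (n + 1) × Fin N))
    (w : Fin (n + 1) × Fin N → K) (e : Fin (n + 1) × Fin N → ℕ) (i : Fin (n + 1)) :
    (vc T (fun τ => Polynomial.C (w τ) * Polynomial.X ^ (e τ)) i).eval 1 = vc T w i := by
  unfold vc
  rw [Polynomial.eval_finsetSum]
  refine Finset.sum_congr rfl fun j _ => ?_
  split_ifs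
  · simp
  · simp

/-- the last entry of a singular bordered matrix -/
lemma border {α : Type} [Fintype α] [DecidableEq α] {L : Type} [Field L] (A : Matrix α α L)
    (hA : A.det ≠ 0) (b r : α → L) (y : L)
    (h : (Matrix.fromBlocks A (Matrix.of fun i (_ : Unit) => b i)
      (Matrix.of fun (_ : Unit) j => r j) (Matrix.of fun _ _ => y)).det = 0) :
    y = ∑ i, (Matrix.vecMul r A⁻¹) i * b i := by
  have : Invertible A := Matrix.invertibleOfIsUnitDet A (isUnit_iff_ne_zero.2 hA)
  rw [Matrix.det_fromBlocks₁₁, mul_eq_zero] at h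
  have h1 := h.resolve_left hA
  rw [Matrix.det_unique, Matrix.sub_apply, Matrix.of_apply, sub_eq_zero] at h1
  rw [h1, Matrix.mul_apply]
  refine Finset.sum_congr rfl fun i _ => ?_
  rw [Matrix.of_apply, Matrix.mul_apply, Matrix.invOf_eq_nonsing_inv]
  rfl

lemma countable_fg {A : Type} [Group A] (H : Subgroup A) (h : H.FG) : Countable H := by
  have h1 : Group.FG H := (Group.fg_iff_subgroup_fg H).2 h
  obtain ⟨S, hS, φ, hφ⟩ := Monoid.fg_iff_exists_freeMonoid_hom_surjective.1
    (inferInstance : Monoid.FG H)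
  have : Countable S := hS.countable.to_subtype
  have : Countable (FreeMonoid S) := inferInstanceAs (Countable (List S))
  exact hφ.countable

end Pool.Agent.D0H59.UB
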