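import Mathlib
import Pool.Agent.D0H59.UB.Lin

/-!
# Points with sparse coordinates on families of varieties without rational curves
-/

set_option autoImplicit false

open Filter Finset

namespace Pool.Agent.D0H59.UB

variable {K : Type} [Field K]

/-- deformation and reduction of the number of terms -/
theorem shrink (U : Ultrafilter ℕ) (𝒢 : Subgroup (ℕ → Kˣ)) (hI : Ind U 𝒢) {n d N : ℕ}
    (FF : ℕ → Set (MvPolynomial (Fin (n + 1)) K)) (hF : ∀ m, ∀ F ∈ FF m, F.IsHomogeneous d)
    (E : ℕ → Set (Fin (n + 1) → K)) (hNo : ∀ m, ∀ x ∈ E m, ¬ OnCurve (FF m) x)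
    (hE0 : ∀ m, ∀ x ∈ E m, x ≠ 0)
    (hEs : ∀ m, ∀ x ∈ E m, ∀ c : K, c ≠ 0 → (fun i => c * x i) ∈ E m)
    (hEF : ∀ m, ∀ x ∈ E m, ∀ F ∈ FF m, MvPolynomial.aeval x F = 0)
    {α : Type} [Fintype α] [DecidableEq α] (T0 : α → Finset (Fin (n + 1) × Fin N))
    (w0 : α → Fin (n + 1) × Fin N → ℕ → Kˣ) (col : α → Mon n d) (hw0 : ∀ i τ, w0 i τ ∈ 𝒢)
    (hdet : ∀ᶠ m in (U : Filter ℕ), (∀ i, vc (T0 i) (fun τ => (w0 i τ m : K)) ∈ E m) ∧
      (Matrix.of fun i j => mv (vc (T0 i) (fun τ => (w0 i τ m : K))) (col j)).det ≠ 0)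
    (hmax : ∀ (T : Finset (Fin (n + 1) × Fin N)) (w : Fin (n + 1) × Fin N → ℕ → Kˣ) (s : Mon n d),
      (∀ τ, w τ ∈ 𝒢) → (∀ᶠ m in (U : Filter ℕ), vc T (fun τ => (w τ m : K)) ∈ E m) →
      ∀ᶠ m in (U : Filter ℕ), (Matrix.of fun r c : α ⊕ Unit =>
        mv (vc (Sum.elim T0 (fun _ => T) r) (fun τ => (Sum.elim w0 (fun _ => w) r τ m : K)))
          (Sum.elim col (fun _ => s) c)).det = 0)
    (k : ℕ) : ∀ (T : Finset (Fin (n + 1) × Fin N)) (w : Fin (n + 1) × Fin N → ℕ → Kˣ),
      T.card = k → (∀ τ, w τ ∈ 𝒢) →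
      (∀ᶠ m in (U : Filter ℕ), vc T (fun τ => (w τ m : K)) ∈ E m) →
      ∃ T' : Finset (Fin (n + 1) × Fin N),
        (∀ᶠ m in (U : Filter ℕ), ∃ c : K, c ≠ 0 ∧
          ∀ i, vc T' (fun τ => (w τ m : K)) i = c * vc T (fun τ => (w τ m : K)) i) ∧
        ∀ τ ∈ T', ∀ τ' ∈ T', Tors U
          (Set.range fun q : α × (Fin (n + 1) × Fin N) => w0 q.1 q.2) (w τ * (w τ')⁻¹) := by
  classical
  induction k using Nat.strong_induction_on with
  | _ k ih =>
  intro T w hk hw hTE
  by_cases hall : ∀ τ ∈ T, ∀ τ' ∈ T, Tors U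
      (Set.range fun q : α × (Fin (n + 1) × Fin N) => w0 q.1 q.2) (w τ * (w τ')⁻¹)
  · exact ⟨T, Filter.Eventually.of_forall fun m => ⟨1, one_ne_zero, fun i => (one_mul _).symm⟩,
      hall⟩
  push Not at hall
  obtain ⟨τ1, hτ1, τ0, hτ0, hnt⟩ := hall
  obtain ⟨L, hL, hL1, hLs, hLc⟩ := exists_weight U _ _ hnt
  let σ : Type := (α × (Fin (n + 1) × Fin N)) ⊕ (Fin (n + 1) × Fin N)
  let v : σ → ℕ → Kˣ := Sum.elim (fun q => w0 q.1 q.2) w
  have hv : ∀ q, v q ∈ 𝒢 := by
    rintro (q | q)
    · exact hw0 _ _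
    · exact hw _
  let D : ℕ := ∏ q : σ, (L (v q)).den
  have hD0 : (D : ℚ) ≠ 0 := by
    have : D ≠ 0 := Finset.prod_ne_zero_iff.2 fun q _ => (L (v q)).den_ne_zero
    exact_mod_cast this
  have hn : ∀ q : σ, ∃ k : ℤ, (k : ℚ) = (D : ℚ) * L (v q) := by
    intro q
    obtain ⟨e, he⟩ : (L (v q)).den ∣ D := Finset.dvd_prod_of_mem _ (Finset.mem_univ q)
    refine ⟨e * (L (v q)).num, ?_⟩
    have h1 : (D : ℚ) = (L (v q)).den * e := by exact_mod_cast he
    have h2 : (L (v q)).den * L (v q) = (L (v q)).num := Rat.den_mul_eq_num _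
    rw [h1]
    push_cast
    rw [← h2]
    ring
  choose nn hnn using hn
  have hdef := fun f : MvPolynomial σ ℤ => deform U 𝒢 hI v hv L hL hLc (D : ℚ) nn hnn f
  have hnn0 : ∀ q, nn (Sum.inl q) = 0 := by
    intro q
    have h1 : L (v (Sum.inl q)) = 0 := hLs _ ⟨q, rfl⟩
    have h2 := hnn (Sum.inl q)
    rw [h1, mul_zero] at h2
    exact_mod_cast h2
  have hnne : nn (Sum.inr τ1) ≠ nn (Sum.inr τ0) := by
    intro h
    have h1 := hnn (Sum.inr τ1)
    have h2 := hnn (Sum.inr τ0)
    rw [h] at h1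
    have h3 : L (w τ1) = 1 + L (w τ0) := by
      rw [← hL1, ← hL, inv_mul_cancel_right]
    have h4 : (D : ℚ) * L (w τ1) = D * L (w τ0) := by
      have h5 : L (v (Sum.inr τ1)) = L (w τ1) := rfl
      have h6 : L (v (Sum.inr τ0)) = L (w τ0) := rfl
      rw [← h5, ← h6, ← h1, ← h2]
    rw [h3] at h4
    have h5 := mul_left_cancel₀ hD0 h4
    linarith
  -- the generic bordered determinants
  let gp : α ⊕ Unit → Fin (n + 1) → MvPolynomial σ ℤ :=
    Sum.elim (fun i => vc (T0 i) (fun τ => MvPolynomial.X (Sum.inl (i, τ))))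
      (fun _ => vc T (fun τ => MvPolynomial.X (Sum.inr τ)))
  let f : Mon n d → MvPolynomial σ ℤ := fun s =>
    (Matrix.of fun r c : α ⊕ Unit => mv (gp r) (Sum.elim col (fun _ => s) c)).det
  have hfmap : ∀ (R : Type) [CommRing R] (φ : MvPolynomial σ ℤ →+* R) (s : Mon n d),
      φ (f s) = (Matrix.of fun r c : α ⊕ Unit =>
        mv (fun i => φ (gp r i)) (Sum.elim col (fun _ => s) c)).det := by
    intro R _ φ s
    rw [RingHom.map_det]
    congr 1
    ext r c
    simp only [RingHom.mapMatrix_apply, Matrix.map_apply, Matrix.of_apply]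
    exact mv_map φ _ _
  have hgl : ∀ (R : Type) [CommRing R] (φ : MvPolynomial σ ℤ →+* R) (i : α) (l : Fin (n + 1)),
      φ (gp (Sum.inl i) l) = vc (T0 i) (fun τ => φ (MvPolynomial.X (Sum.inl (i, τ)))) l := by
    intro R _ φ i l
    exact vc_map φ (T0 i) (fun τ => MvPolynomial.X (Sum.inl (i, τ))) l
  have hgr : ∀ (R : Type) [CommRing R] (φ : MvPolynomial σ ℤ →+* R) (i : Unit) (l : Fin (n + 1)),
      φ (gp (Sum.inr i) l) = vc T (fun τ => φ (MvPolynomial.X (Sum.inr τ))) l := by
    intro R _ φ i l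
    exact vc_map φ T (fun τ => MvPolynomial.X (Sum.inr τ)) l
  have hstep1 : ∀ s, ∀ᶠ m in (U : Filter ℕ), MvPolynomial.aeval (fun i => (v i m : K)) (f s) = 0 := by
    intro s
    filter_upwards [hmax T w s hw hTE] with m hm
    rw [← hm]
    let φ : MvPolynomial σ ℤ →+* K := (MvPolynomial.aeval (R := ℤ) (fun i => (v i m : K))).toRingHom
    have hφ : ∀ q, φ (MvPolynomial.X q) = (v q m : K) := fun q => MvPolynomial.aeval_X _ _
    refine (hfmap K φ s).trans ?_
    congr 1
    ext r c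
    simp only [Matrix.of_apply]
    congr 1
    funext i
    rcases r with r | r
    · refine (hgl K φ r i).trans ?_
      refine vc_congr _ _ _ (fun τ _ => ?_) i
      exact hφ _
    · refine (hgr K φ r i).trans ?_
      refine vc_congr _ _ _ (fun τ _ => ?_) i
      exact hφ _
  have hstep2 : ∀ᶠ m in (U : Filter ℕ), ∀ s : Mon n d,
      MvPolynomial.aeval (fun i => RatFunc.C (v i m : K) * RatFunc.X ^ (nn i)) (f s) = 0 := by
    rw [Filter.eventually_all]
    exact fun s => hdef (f s) (hstep1 s)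
  -- the exponents
  let M : ℕ := ∑ τ : Fin (n + 1) × Fin N, (nn (Sum.inr τ)).natAbs
  have he : ∀ τ : Fin (n + 1) × Fin N, ∃ e : ℕ, (e : ℤ) = M + nn (Sum.inr τ) := by
    intro τ
    have h1 : (nn (Sum.inr τ)).natAbs ≤ M :=
      Finset.single_le_sum (f := fun τ : Fin (n + 1) × Fin N => (nn (Sum.inr τ)).natAbs)
        (fun _ _ => Nat.zero_le _) (Finset.mem_univ τ)
    exact ⟨(M + nn (Sum.inr τ)).toNat, by omega⟩
  choose e he using he
  have hene : e τ1 ≠ e τ0 := by
    intro h
    have h1 := he τ1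
    have h2 := he τ0
    rw [h] at h1
    apply hnne
    omega
  let T1 : Finset (Fin (n + 1) × Fin N) := T.filter fun τ => e τ = e τ0
  have hprop : ∀ᶠ m in (U : Filter ℕ), ∃ μ : K, ∀ i, vc T1 (fun τ => (w τ m : K)) i =
      μ * vc T (fun τ => (w τ m : K)) i := by
    filter_upwards [hstep2, hdet, hTE] with m h1 h2 h3
    let P : Fin (n + 1) → RatFunc K :=
      vc T (fun τ => RatFunc.C (w τ m : K) * RatFunc.X ^ (nn (Sum.inr τ)))
    let x0 : α → Fin (n + 1) → K := fun i => vc (T0 i) (fun τ => (w0 i τ m : K))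
    let A : Matrix α α (RatFunc K) := Matrix.of fun i j => mv (fun l => RatFunc.C (x0 i l)) (col j)
    have hA : A.det ≠ 0 := by
      have h4 : A = (RatFunc.C : K →+* RatFunc K).mapMatrix
          (Matrix.of fun i j => mv (x0 i) (col j)) := by
        ext i j
        simp only [A, RingHom.mapMatrix_apply, Matrix.map_apply, Matrix.of_apply]
        exact (mv_map RatFunc.C _ _).symm
      rw [h4, ← RingHom.map_det]
      exact (map_ne_zero _).2 h2.2
    have hmvP : ∀ s : Mon n d, mv P s =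
        ∑ i, (Matrix.vecMul (fun j => mv P (col j)) A⁻¹) i * mv (fun l => RatFunc.C (x0 i l)) s := by
      intro s
      apply border A hA
      have h4 := h1 s
      rw [← h4]
      refine Eq.symm ?_
      let φ : MvPolynomial σ ℤ →+* RatFunc K := (MvPolynomial.aeval (R := ℤ)
        (fun i => RatFunc.C (v i m : K) * (RatFunc.X : RatFunc K) ^ (nn i))).toRingHom
      have hφ : ∀ q, φ (MvPolynomial.X q) =
          RatFunc.C (v q m : K) * (RatFunc.X : RatFunc K) ^ (nn q) :=
        fun q => MvPolynomial.aeval_X _ _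
      refine (hfmap (RatFunc K) φ s).trans ?_
      have hl : ∀ (i : α) (l : Fin (n + 1)), φ (gp (Sum.inl i) l) = RatFunc.C (x0 i l) := by
        intro i l
        refine (hgl _ φ i l).trans ?_
        refine Eq.trans ?_ (vc_map (RatFunc.C : K →+* RatFunc K) _ _ _).symm
        refine vc_congr _ _ _ (fun τ _ => ?_) l
        rw [hφ, hnn0, zpow_zero, mul_one]
        rfl
      have hr : ∀ (u : Unit) (l : Fin (n + 1)), φ (gp (Sum.inr u) l) = P l := by
        intro u l
        refine (hgr _ φ u l).trans ?_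
        refine vc_congr _ _ _ (fun τ _ => ?_) l
        exact hφ _
      congr 1
      ext r c
      rcases r with r | r <;> rcases c with c | c
      · simp only [Matrix.of_apply, hl, Sum.elim_inl, Matrix.fromBlocks_apply₁₁, A]
      · simp only [Matrix.of_apply, hl, Sum.elim_inr, Matrix.fromBlocks_apply₁₂]
      · simp only [Matrix.of_apply, hr, Sum.elim_inl, Matrix.fromBlocks_apply₂₁]
      · simp only [Matrix.of_apply, hr, Sum.elim_inr, Matrix.fromBlocks_apply₂₂]
    have hFP : ∀ F ∈ FF m, MvPolynomial.aeval P F = 0 := by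
      intro F hFm
      rw [aeval_eq F (hF m F hFm)]
      have h6 : ∀ s : Mon n d, algebraMap K (RatFunc K) (F.coeff s.1) * mv P s =
          ∑ i, algebraMap K (RatFunc K) (F.coeff s.1) *
            ((Matrix.vecMul (fun j => mv P (col j)) A⁻¹) i * mv (fun l => RatFunc.C (x0 i l)) s) := by
        intro s
        rw [← Finset.mul_sum, ← hmvP s]
      rw [Finset.sum_congr rfl fun s _ => h6 s, Finset.sum_comm]
      refine Finset.sum_eq_zero fun i _ => ?_
      have h4 := hEF m _ (h2.1 i) F hFm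
      rw [aeval_eq F (hF m F hFm)] at h4
      have h5 : ∑ s : Mon n d, algebraMap K (RatFunc K) (F.coeff s.1) *
          ((Matrix.vecMul (fun j => mv P (col j)) A⁻¹) i * mv (fun l => RatFunc.C (x0 i l)) s) =
          (Matrix.vecMul (fun j => mv P (col j)) A⁻¹) i * RatFunc.C
            (∑ s : Mon n d, algebraMap K K (F.coeff s.1) * mv (x0 i) s) := by
        rw [map_sum, Finset.mul_sum]
        refine Finset.sum_congr rfl fun s _ => ?_
        rw [map_mul, mv_map, RatFunc.algebraMap_eq_C]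
        simp only [Algebra.algebraMap_self, RingHom.id_apply]
        ring
      rw [h5, h4, map_zero, mul_zero]
    -- polynomials
    let p : Fin (n + 1) → Polynomial K :=
      vc T (fun τ => Polynomial.C (w τ m : K) * Polynomial.X ^ (e τ))
    have hpP : ∀ l, algebraMap (Polynomial K) (RatFunc K) (p l) = RatFunc.X ^ M * P l := by
      intro l
      refine (vc_map _ _ _ _).trans ?_
      rw [← vc_smul]
      refine vc_congr _ _ _ (fun τ _ => ?_) l
      rw [map_mul, map_pow, RatFunc.algebraMap_C, RatFunc.algebraMap_X,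
        ← zpow_natCast (RatFunc.X : RatFunc K) (e τ), he τ, zpow_add₀ RatFunc.X_ne_zero,
        zpow_natCast]
      ring
    have hFp : ∀ F ∈ FF m, MvPolynomial.aeval p F = 0 := by
      intro F hFm
      apply RatFunc.algebraMap_injective K
      rw [aeval_eq F (hF m F hFm), map_sum, map_zero]
      have h4 := hFP F hFm
      rw [aeval_eq F (hF m F hFm)] at h4
      calc ∑ s : Mon n d, algebraMap (Polynomial K) (RatFunc K)
            (algebraMap K (Polynomial K) (F.coeff s.1) * mv p s) =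
          (RatFunc.X ^ M) ^ d * ∑ s : Mon n d, algebraMap K (RatFunc K) (F.coeff s.1) * mv P s := by
            rw [Finset.mul_sum]
            refine Finset.sum_congr rfl fun s _ => ?_
            rw [map_mul, mv_map, ← IsScalarTower.algebraMap_apply]
            simp only [hpP]
            rw [mv_smul]
            ring
        _ = 0 := by rw [h4, mul_zero]
    have hnc := hNo m _ h3
    unfold OnCurve at hnc
    push Not at hnc
    obtain ⟨c, h, hph⟩ := hnc p hFp (fun l => vc_eval T (fun τ => (w τ m : K)) e l)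
    have heval : ∀ l, vc T (fun τ => (w τ m : K)) l = c l * h.eval 1 := by
      intro l
      rw [← vc_eval T (fun τ => (w τ m : K)) e l]
      have := congrArg (Polynomial.eval 1) (hph l)
      rw [Polynomial.eval_mul, Polynomial.eval_C] at this
      exact this
    have hcoef : ∀ l, vc T1 (fun τ => (w τ m : K)) l = c l * h.coeff (e τ0) := by
      intro l
      rw [← vc_coeff T (fun τ => (w τ m : K)) e (e τ0) l]
      have := congrArg (fun q => Polynomial.coeff q (e τ0)) (hph l)
      simp only [Polynomial.coeff_C_mul] at this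
      exact this
    have hh : h.eval 1 ≠ 0 := by
      intro h0
      apply hE0 m _ h3
      funext l
      rw [heval l, h0, mul_zero]
      rfl
    refine ⟨h.coeff (e τ0) / h.eval 1, fun l => ?_⟩
    rw [hcoef, heval]
    field_simp
  have hT1 : τ0 ∈ T1 := Finset.mem_filter.2 ⟨hτ0, rfl⟩
  have hT1' : τ1 ∉ T1 := fun h => hene (Finset.mem_filter.1 h).2
  have hT1T : T1 ⊆ T := Finset.filter_subset _ _
  by_cases hA : ∀ᶠ m in (U : Filter ℕ), ∃ μ : K, μ ≠ 0 ∧ ∀ i, vc T1 (fun τ => (w τ m : K)) i =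
      μ * vc T (fun τ => (w τ m : K)) i
  · have hlt : T1.card < k := by
      rw [← hk]
      exact Finset.card_lt_card ⟨hT1T, fun h => hT1' (h hτ1)⟩
    obtain ⟨T', h1, h2⟩ := ih T1.card hlt T1 w rfl hw (by
      filter_upwards [hA, hTE] with m ⟨μ, hμ, hm⟩ h1
      have := hEs m _ h1 μ hμ
      convert this using 1
      funext i
      exact hm i)
    refine ⟨T', ?_, h2⟩
    filter_upwards [h1, hA] with m ⟨c, hc, hm⟩ ⟨μ, hμ, hm'⟩
    refine ⟨c * μ, mul_ne_zero hc hμ, fun i => ?_⟩
    rw [hm i, hm' i]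
    ring
  · have hB : ∀ᶠ m in (U : Filter ℕ), ∀ i, vc (T \ T1) (fun τ => (w τ m : K)) i =
        vc T (fun τ => (w τ m : K)) i := by
      filter_upwards [Ultrafilter.eventually_not.2 hA, hprop] with m h1 ⟨μ, hμ⟩ i
      have h2 : μ = 0 := by
        by_contra h3
        exact h1 ⟨μ, h3, hμ⟩
      rw [vc_sdiff T T1 hT1T, hμ i, h2]
      ring
    have hlt : (T \ T1).card < k := by
      rw [← hk]
      exact Finset.card_lt_card ⟨Finset.sdiff_subset, fun h =>
        (Finset.mem_sdiff.1 (h hτ0)).2 hT1⟩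
    obtain ⟨T', h1, h2⟩ := ih (T \ T1).card hlt (T \ T1) w rfl hw (by
      filter_upwards [hB, hTE] with m hm h1
      convert h1 using 1
      funext i
      exact hm i)
    refine ⟨T', ?_, h2⟩
    filter_upwards [h1, hB] with m ⟨c, hc, hm⟩ hm'
    refine ⟨c, hc, fun i => ?_⟩
    rw [hm i, hm' i]

end Pool.Agent.D0H59.UB
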