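import Mathlib
import Pool.Agent.D0H59.UB.Main
import Pool.Agent.D0H59.SU.Tay

/-!
# The points with sparse coordinates form countably many sequences, hence they are boundedly many
-/

set_option autoImplicit false

open Filter Finset

namespace Pool.Agent.D0H59.UB

open Pool.Agent.D0H59.SU (const_of_finite)

section

variable {K : Type} [Field K]

/-- a certificate for the rank `ρ` of the values of the monomials -/
def Good (U : Ultrafilter ℕ) (𝒢 : Subgroup (ℕ → Kˣ)) (n d N : ℕ)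
    (E : ℕ → Set (Fin (n + 1) → K)) (ρ : ℕ) : Prop :=
  ∃ (α : Type) (_ : Fintype α) (_ : DecidableEq α) (T0 : α → Finset (Fin (n + 1) × Fin N))
    (w0 : α → Fin (n + 1) × Fin N → ℕ → Kˣ) (col : α → Mon n d), Fintype.card α = ρ ∧
    (∀ i τ, w0 i τ ∈ 𝒢) ∧
    ∀ᶠ m in (U : Filter ℕ), (∀ i, vc (T0 i) (fun τ => (w0 i τ m : K)) ∈ E m) ∧
      (Matrix.of fun i j => mv (vc (T0 i) (fun τ => (w0 i τ m : K))) (col j)).det ≠ 0

lemma good_max (U : Ultrafilter ℕ) (𝒢 : Subgroup (ℕ → Kˣ)) (n d N : ℕ)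
    (E : ℕ → Set (Fin (n + 1) → K)) : ∃ ρ, Good U 𝒢 n d N E ρ ∧ ¬ Good U 𝒢 n d N E (ρ + 1) := by
  by_contra hno
  push Not at hno
  have h0 : Good U 𝒢 n d N E 0 := by
    refine ⟨Empty, inferInstance, inferInstance, fun i => i.elim, fun i => i.elim,
      fun i => i.elim, Fintype.card_empty, fun i => i.elim,
      Filter.Eventually.of_forall fun m => ⟨fun i => i.elim, ?_⟩⟩
    rw [Matrix.det_isEmpty]
    exact one_ne_zero
  have hall : ∀ ρ, Good U 𝒢 n d N E ρ := by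
    intro ρ
    induction ρ with
    | zero => exact h0
    | succ ρ ih => exact hno ρ ih
  obtain ⟨α, _, _, T0, w0, col, hcard, _, hev⟩ := hall (Fintype.card (Mon n d) + 1)
  obtain ⟨m, _, hm⟩ := hev.exists
  have hni : ¬ Function.Injective col := by
    intro h
    have := Fintype.card_le_of_injective col h
    omega
  unfold Function.Injective at hni
  push Not at hni
  obtain ⟨i, j, hij, hne⟩ := hni
  apply hm
  apply Matrix.det_zero_of_column_eq hne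
  intro k
  rw [Matrix.of_apply, Matrix.of_apply, hij]

/-- countably many roots -/
lemma roots (U : Ultrafilter ℕ) (𝒢 : Subgroup (ℕ → Kˣ))
    (hC : {a : Kˣ | ∃ u ∈ 𝒢, ∀ᶠ m in (U : Filter ℕ), u m = a}.Countable)
    (s : Set (ℕ → Kˣ)) (hs : s.Finite) (hs𝒢 : s ⊆ 𝒢) :
    ∃ 𝓓 : Set (ℕ → Kˣ), 𝓓.Countable ∧
      ∀ ρ ∈ 𝒢, Tors U s ρ → ∃ δ ∈ 𝓓, ∀ᶠ m in (U : Filter ℕ), ρ m = δ m := by
  classical
  set Cst : Set Kˣ := {a : Kˣ | ∃ u ∈ 𝒢, ∀ᶠ m in (U : Filter ℕ), u m = a} with hCst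
  have : Countable Cst := hC.to_subtype
  have hfg : (Subgroup.closure s).FG := (Subgroup.fg_iff _).2 ⟨s, rfl, hs⟩
  have : Countable (Subgroup.closure s) := countable_fg _ hfg
  have hcl : Subgroup.closure s ≤ 𝒢 := (Subgroup.closure_le _).2 hs𝒢
  let Q : (ℕ × Subgroup.closure s × Cst) → (ℕ → Kˣ) → Prop := fun q ρ =>
    ρ ∈ 𝒢 ∧ ∀ᶠ m in (U : Filter ℕ), ρ m ^ q.1 = q.2.2.1 * q.2.1.1 m
  let ρ0 : (ℕ × Subgroup.closure s × Cst) → (ℕ → Kˣ) := fun q =>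
    if h : ∃ ρ, Q q ρ then h.choose else 1
  refine ⟨Set.range fun q : (ℕ × Subgroup.closure s × Cst) × Cst =>
    fun m => q.2.1 * ρ0 q.1 m, Set.countable_range _, ?_⟩
  rintro ρ hρ ⟨n, hn, y, hy, a, ha⟩
  have haC : a ∈ Cst := by
    refine ⟨ρ ^ n * y⁻¹, 𝒢.mul_mem (𝒢.pow_mem hρ n) (𝒢.inv_mem (hcl hy)), ?_⟩
    filter_upwards [ha] with m hm
    rw [Pi.mul_apply, Pi.pow_apply, Pi.inv_apply, hm, mul_inv_cancel_right]
  have hQ : ∃ ρ', Q (n, ⟨y, hy⟩, ⟨a, haC⟩) ρ' := ⟨ρ, hρ, ha⟩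
  have hρ0 : Q (n, ⟨y, hy⟩, ⟨a, haC⟩) (ρ0 (n, ⟨y, hy⟩, ⟨a, haC⟩)) := by
    have : ρ0 (n, ⟨y, hy⟩, ⟨a, haC⟩) = hQ.choose := dif_pos hQ
    rw [this]
    exact hQ.choose_spec
  obtain ⟨ζ, hζ⟩ := const_of_finite U {z : Kˣ | z ^ n = 1} (by
    have : NeZero n := ⟨by omega⟩
    have h1 : Finite (rootsOfUnity n K) := inferInstance
    exact Set.toFinite (rootsOfUnity n K : Set Kˣ))
    (fun m => ρ m * (ρ0 (n, ⟨y, hy⟩, ⟨a, haC⟩) m)⁻¹) (by
      filter_upwards [ha, hρ0.2] with m h1 h2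
      show (ρ m * (ρ0 (n, ⟨y, hy⟩, ⟨a, haC⟩) m)⁻¹) ^ n = 1
      rw [mul_pow, inv_pow, h1, h2, mul_inv_cancel])
  have hζC : ζ ∈ Cst := by
    refine ⟨ρ * (ρ0 (n, ⟨y, hy⟩, ⟨a, haC⟩))⁻¹, 𝒢.mul_mem hρ (𝒢.inv_mem hρ0.1), ?_⟩
    filter_upwards [hζ] with m hm
    exact hm
  refine ⟨_, ⟨((n, ⟨y, hy⟩, ⟨a, haC⟩), ⟨ζ, hζC⟩), rfl⟩, ?_⟩
  filter_upwards [hζ] with m hm
  rw [← hm, inv_mul_cancel_right]

/-- the points of the sets `E m` form countably many sequences -/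
theorem countable_points (U : Ultrafilter ℕ) (𝒢 : Subgroup (ℕ → Kˣ)) (hI : Ind U 𝒢)
    (hC : {a : Kˣ | ∃ u ∈ 𝒢, ∀ᶠ m in (U : Filter ℕ), u m = a}.Countable) {n d N : ℕ}
    (FF : ℕ → Set (MvPolynomial (Fin (n + 1)) K)) (hF : ∀ m, ∀ F ∈ FF m, F.IsHomogeneous d)
    (E : ℕ → Set (Fin (n + 1) → K)) (hNo : ∀ m, ∀ x ∈ E m, ¬ OnCurve (FF m) x)
    (hE0 : ∀ m, ∀ x ∈ E m, x ≠ 0)
    (hEs : ∀ m, ∀ x ∈ E m, ∀ c : K, c ≠ 0 → (fun i => c * x i) ∈ E m)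
    (hEF : ∀ m, ∀ x ∈ E m, ∀ F ∈ FF m, MvPolynomial.aeval x F = 0)
    (hrep : ∀ x : ℕ → Fin (n + 1) → K, (∀ m, x m ∈ E m) →
      ∃ (T : Finset (Fin (n + 1) × Fin N)) (w : Fin (n + 1) × Fin N → ℕ → Kˣ),
        (∀ τ, w τ ∈ 𝒢) ∧ ∀ᶠ m in (U : Filter ℕ), ∃ c : K, c ≠ 0 ∧
          ∀ i, vc T (fun τ => (w τ m : K)) i = c * x m i) :
    ∃ Z : Set (ℕ → Fin (n + 1) → K), Z.Countable ∧ ∀ x : ℕ → Fin (n + 1) → K,
      (∀ m, x m ∈ E m) → ∃ z ∈ Z, ∀ᶠ m in (U : Filter ℕ), ∃ c : K, c ≠ 0 ∧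
        ∀ i, z m i = c * x m i := by
  classical
  obtain ⟨ρ, ⟨α, hα1, hα2, T0, w0, col, hcard, hw0, hdet⟩, hnot⟩ := good_max U 𝒢 n d N E
  have hmax : ∀ (T : Finset (Fin (n + 1) × Fin N)) (w : Fin (n + 1) × Fin N → ℕ → Kˣ)
      (s : Mon n d), (∀ τ, w τ ∈ 𝒢) →
      (∀ᶠ m in (U : Filter ℕ), vc T (fun τ => (w τ m : K)) ∈ E m) →
      ∀ᶠ m in (U : Filter ℕ), (Matrix.of fun r c : α ⊕ Unit =>
        mv (vc (Sum.elim T0 (fun _ => T) r) (fun τ => (Sum.elim w0 (fun _ => w) r τ m : K)))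
          (Sum.elim col (fun _ => s) c)).det = 0 := by
    intro T w s hw hTE
    by_contra hno
    apply hnot
    refine ⟨α ⊕ Unit, inferInstance, inferInstance, Sum.elim T0 (fun _ => T),
      Sum.elim w0 (fun _ => w), Sum.elim col (fun _ => s), ?_, ?_, ?_⟩
    · rw [Fintype.card_sum, hcard]
      rfl
    · rintro (i | i) τ
      · exact hw0 i τ
      · exact hw τ
    · filter_upwards [hdet, hTE, Ultrafilter.eventually_not.2 hno] with m h1 h2 h3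
      refine ⟨?_, h3⟩
      rintro (i | i)
      · exact h1.1 i
      · exact h2
  set s : Set (ℕ → Kˣ) := Set.range fun q : α × (Fin (n + 1) × Fin N) => w0 q.1 q.2 with hs
  obtain ⟨𝓓, h𝓓, h𝓓'⟩ := roots U 𝒢 hC s (Set.finite_range _) (by
    rintro _ ⟨q, rfl⟩
    exact hw0 _ _)
  let 𝓓1 : Set (ℕ → Kˣ) := insert 1 𝓓
  have : Countable 𝓓1 := (h𝓓.insert 1).to_subtype
  refine ⟨Set.range fun q : Finset (Fin (n + 1) × Fin N) × (Fin (n + 1) × Fin N → 𝓓1) =>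
    fun m => vc q.1 (fun τ => ((q.2 τ).1 m : K)), Set.countable_range _, ?_⟩
  intro x hx
  obtain ⟨T, w, hw, hTw⟩ := hrep x hx
  have hTE : ∀ᶠ m in (U : Filter ℕ), vc T (fun τ => (w τ m : K)) ∈ E m := by
    filter_upwards [hTw] with m ⟨c, hc, hm⟩
    have h1 := hEs m _ (hx m) c hc
    convert h1 using 1
    funext i
    exact hm i
  obtain ⟨T', h1, h2⟩ := shrink U 𝒢 hI FF hF E hNo hE0 hEs hEF T0 w0 col hw0 hdet hmax T.card T w
    rfl hw hTE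
  have hne : T'.Nonempty := by
    rw [Finset.nonempty_iff_ne_empty]
    rintro rfl
    obtain ⟨m, ⟨c, hc, hm⟩, h3⟩ := (h1.and hTE).exists
    apply hE0 m _ h3
    funext i
    have h4 := hm i
    rw [vc_empty] at h4
    exact (mul_eq_zero.1 h4.symm).resolve_left hc
  obtain ⟨τ0, hτ0⟩ := hne
  have h3 : ∀ τ, ∃ δ : 𝓓1, τ ∈ T' → ∀ᶠ m in (U : Filter ℕ), w τ m * (w τ0 m)⁻¹ = δ.1 m := by
    intro τ
    by_cases hτ : τ ∈ T'
    · obtain ⟨δ, hδ, hδ'⟩ := h𝓓' (w τ * (w τ0)⁻¹) (𝒢.mul_mem (hw τ) (𝒢.inv_mem (hw τ0)))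
        (h2 τ hτ τ0 hτ0)
      exact ⟨⟨δ, Set.mem_insert_of_mem _ hδ⟩, fun _ => hδ'⟩
    · exact ⟨⟨1, Set.mem_insert _ _⟩, fun h => absurd h hτ⟩
  choose δ hδ using h3
  refine ⟨_, ⟨(T', δ), rfl⟩, ?_⟩
  have h4 : ∀ᶠ m in (U : Filter ℕ), ∀ τ, τ ∈ T' → w τ m * (w τ0 m)⁻¹ = (δ τ).1 m := by
    rw [Filter.eventually_all]
    intro τ
    by_cases hτ : τ ∈ T'
    · filter_upwards [hδ τ hτ] with m hm _
      exact hm
    · exact Filter.Eventually.of_forall fun m h => absurd h hτ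
  filter_upwards [h1, hTw, h4] with m ⟨c, hc, hm⟩ ⟨c', hc', hm'⟩ h5
  have hu : ((w τ0 m : Kˣ) : K) ≠ 0 := (w τ0 m).ne_zero
  refine ⟨(w τ0 m : K)⁻¹ * (c * c'), mul_ne_zero (inv_ne_zero hu) (mul_ne_zero hc hc'),
    fun i => ?_⟩
  have h6 : vc T' (fun τ => ((δ τ).1 m : K)) i =
      vc T' (fun τ => (w τ0 m : K)⁻¹ * (w τ m : K)) i := by
    refine vc_congr _ _ _ (fun τ hτ => ?_) i
    rw [← h5 τ hτ, Units.val_mul, Units.val_inv_eq_inv_val, mul_comm]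
  show vc T' (fun τ => ((δ τ).1 m : K)) i = _
  rw [h6, vc_smul, hm i, hm' i]
  ring

/-- countably many sequences: boundedly many points -/
theorem diag {n : ℕ} (E : ℕ → Set (Fin (n + 1) → K)) (Z : Set (ℕ → Fin (n + 1) → K))
    (hZ : Z.Countable)
    (h : ∀ x : ℕ → Fin (n + 1) → K, (∀ m, x m ∈ E m) → ∃ z ∈ Z,
      ∀ᶠ m in (hyperfilter ℕ : Filter ℕ), ∃ c : K, c ≠ 0 ∧ ∀ i, z m i = c * x m i)
    (S : ℕ → Set (Projectivization K (Fin (n + 1) → K)))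
    (hS : ∀ m, ∀ P ∈ S m, ∃ x ∈ E m, ∃ hx : x ≠ 0, P = Projectivization.mk K x hx) :
    ∃ m : ℕ, (S m).encard ≤ m := by
  classical
  by_contra hno
  push Not at hno
  have hne : ∀ m, (S m).Nonempty := by
    intro m
    rw [Set.nonempty_iff_ne_empty]
    intro h0
    have := hno m
    rw [h0, Set.encard_empty] at this
    exact absurd this (by simp)
  choose P0 hP0 using hne
  choose x0 hx0 hx0' hx0P using fun m => hS m (P0 m) (hP0 m)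
  have hZne : Z.Nonempty := by
    obtain ⟨z, hz, _⟩ := h x0 hx0
    exact ⟨z, hz⟩
  obtain ⟨zz, hzz⟩ := hZ.exists_eq_range hZne
  let g : ℕ → ℕ → Projectivization K (Fin (n + 1) → K) := fun m k =>
    if hk : zz k m ≠ 0 then Projectivization.mk K _ hk else P0 m
  have hex : ∀ m, ∃ P ∈ S m, ∀ k < m, g m k ≠ P := by
    intro m
    have h1 : ((g m) '' {k : ℕ | k < m}).encard ≤ m := by
      refine (Set.encard_image_le _ _).trans ?_
      have h2 : {k : ℕ | k < m} = ((Finset.range m : Finset ℕ) : Set ℕ) := by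
        ext k
        simp
      rw [h2, Set.encard_coe_eq_coe_finsetCard, Finset.card_range]
    have h2 : ¬ S m ⊆ (g m) '' {k : ℕ | k < m} := by
      intro hsub
      exact absurd ((Set.encard_le_encard hsub).trans h1) (not_le.2 (hno m))
    obtain ⟨P, hP, hP'⟩ := Set.not_subset.1 h2
    exact ⟨P, hP, fun k hk he => hP' ⟨k, hk, he⟩⟩
  choose P hP hPg using hex
  choose x hx hx' hxP using fun m => hS m (P m) (hP m)
  obtain ⟨z, hz, hev⟩ := h x hx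
  rw [hzz] at hz
  obtain ⟨k, rfl⟩ := hz
  have hlarge : ∀ᶠ m in (hyperfilter ℕ : Filter ℕ), k < m :=
    Nat.hyperfilter_le_atTop (eventually_gt_atTop k)
  obtain ⟨m, ⟨c, hc, hm⟩, hkm⟩ := (hev.and hlarge).exists
  apply hPg m k hkm
  have hz0 : zz k m ≠ 0 := by
    intro h0
    apply hx' m
    funext i
    have := hm i
    rw [h0] at this
    exact (mul_eq_zero.1 this.symm).resolve_left hc
  have h1 : g m k = Projectivization.mk K _ hz0 := dif_pos hz0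
  rw [h1, hxP m, Projectivization.mk_eq_mk_iff']
  refine ⟨c, ?_⟩
  funext i
  rw [Pi.smul_apply, smul_eq_mul]
  exact (hm i).symm

end

end Pool.Agent.D0H59.UB
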