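import Mathlib
import Pool.Agent.D0H59.UB.Fin
import Pool.Agent.K1H41.PA.Uli
import Pool.Agent.K1H33.PA.UliQ

/-!
# Finitely generated groups
-/

set_option autoImplicit false

open Filter Finset

namespace Pool.Agent.D0H59.UB

open Pool.Agent.D0H59.SU (const_of_finite)

/-- `x` is a sum of at most `N` elements of `G`. -/
def IsSum {K : Type} [Field K] (G : Subgroup Kˣ) (N : ℕ) (x : K) : Prop :=
  ∃ (J : Finset (Fin N)) (w : Fin N → Kˣ), (∀ j, w j ∈ G) ∧ x = ∑ j ∈ J, (w j : K)

/-- The points of the projective variety given by `FF` with homogeneous coordinates which are sums of at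
most `N` elements of `G`, and which do not lie on a nonconstant rational curve over `K` in this variety. -/
def sparsePoints {K : Type} [Field K] {n : ℕ} (FF : Set (MvPolynomial (Fin (n + 1)) K))
    (G : Subgroup Kˣ) (N : ℕ) : Set (Projectivization K (Fin (n + 1) → K)) :=
  {P | ∃ (x : Fin (n + 1) → K) (hx : x ≠ 0), (∀ i, IsSum G N (x i)) ∧
    (∀ F ∈ FF, MvPolynomial.aeval x F = 0) ∧ ¬ OnCurve FF x ∧ P = Projectivization.mk K x hx}

/-- the sequences in `G` -/
def seqs {K : Type} [Field K] (G : Subgroup Kˣ) : Subgroup (ℕ → Kˣ) where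
  carrier := {u | ∀ m, u m ∈ G}
  mul_mem' := fun ha hb m => G.mul_mem (ha m) (hb m)
  one_mem' := fun _ => G.one_mem
  inv_mem' := fun ha m => G.inv_mem (ha m)

theorem ind_seqs {K : Type} [Field K] [CharZero K] (U : Ultrafilter ℕ) (G : Subgroup Kˣ)
    (hG : G.FG) : Ind U (seqs G) := by
  intro ι _ g hg hne c hc
  exact Pool.Agent.K1H41.PA.ULI.fin (Pool.Agent.K1H41.PA.t_ULI Pool.Agent.K1H33.PA.t_ULI_Q K)
    G hG U g hg hne c hc

/-- the theorem for forms of degree `d` -/
theorem bounded (K : Type) [Field K] [CharZero K] (G : Subgroup Kˣ) (hG : G.FG) (n d N : ℕ) :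
    ∃ B : ℕ, ∀ FF : Set (MvPolynomial (Fin (n + 1)) K), (∀ F ∈ FF, F.IsHomogeneous d) →
      (sparsePoints FF G N).encard ≤ B := by
  classical
  by_contra hno
  push Not at hno
  choose FF hF hbig using hno
  let U : Ultrafilter ℕ := hyperfilter ℕ
  let E : ℕ → Set (Fin (n + 1) → K) := fun m => {y | ∃ c : K, c ≠ 0 ∧ ∃ x : Fin (n + 1) → K,
    x ≠ 0 ∧ (∀ i, IsSum G N (x i)) ∧ (∀ F ∈ FF m, MvPolynomial.aeval x F = 0) ∧
      ¬ OnCurve (FF m) x ∧ y = fun i => c * x i}
  have hcount : Countable G := countable_fg G hG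
  obtain ⟨Z, hZ, hZ'⟩ := countable_points U (seqs G) (ind_seqs U G hG) (by
      have h1 : (G : Set Kˣ).Countable := Set.to_countable _
      refine h1.mono ?_
      rintro a ⟨u, hu, ha⟩
      obtain ⟨m, hm⟩ := ha.exists
      rw [← hm]
      exact hu m) (N := N) FF hF E
    (by
      rintro m _ ⟨c, hc, x, hx, _, _, h3, rfl⟩ h4
      exact h3 (OnCurve.smul (hF m) hc h4))
    (by
      rintro m _ ⟨c, hc, x, hx, _, _, _, rfl⟩ h0
      apply hx
      funext i
      have := congrFun h0 i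
      exact (mul_eq_zero.1 this).resolve_left hc)
    (by
      rintro m _ ⟨c, hc, x, hx, h1, h2, h3, rfl⟩ c' hc'
      refine ⟨c' * c, mul_ne_zero hc' hc, x, hx, h1, h2, h3, ?_⟩
      funext i
      ring)
    (by
      rintro m _ ⟨c, hc, x, hx, _, h2, _, rfl⟩ F hFm
      have h3 := h2 F hFm
      rw [aeval_eq F (hF m F hFm)] at h3 ⊢
      simp only [mv_smul]
      calc ∑ s : Mon n d, algebraMap K K (F.coeff s.1) * (c ^ d * mv x s) =
          c ^ d * ∑ s : Mon n d, algebraMap K K (F.coeff s.1) * mv x s := by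
            rw [Finset.mul_sum]
            exact Finset.sum_congr rfl fun s _ => by ring
        _ = 0 := by rw [h3, mul_zero])
    (by
      intro y hy
      choose c hc x hx hsum _ _ hyx using hy
      choose J w hw hJ using hsum
      obtain ⟨T, hT⟩ := const_of_finite U Set.univ Set.finite_univ
        (fun m => Finset.univ.filter fun τ : Fin (n + 1) × Fin N => τ.2 ∈ J m τ.1)
        (Filter.Eventually.of_forall fun _ => Set.mem_univ _)
      refine ⟨T, fun τ m => w m τ.1 τ.2, fun τ m => hw m _ _, ?_⟩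
      filter_upwards [hT] with m hm
      refine ⟨(c m)⁻¹, inv_ne_zero (hc m), fun i => ?_⟩
      have h1 : y m i = c m * x m i := congrFun (hyx m) i
      rw [h1, ← mul_assoc, inv_mul_cancel₀ (hc m), one_mul, hJ m i, ← hm]
      unfold vc
      rw [← Finset.sum_filter]
      refine Finset.sum_congr ?_ fun j _ => rfl
      ext j
      simp)
  obtain ⟨m, hm⟩ := diag E Z hZ hZ' (fun m => sparsePoints (FF m) G N) (by
    rintro m P ⟨x, hx, h1, h2, h3, rfl⟩
    exact ⟨x, ⟨1, one_ne_zero, x, hx, h1, h2, h3, by funext i; rw [one_mul]⟩, hx, rfl⟩)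
  exact absurd hm (not_le.2 (hbig m))

/-- the theorem for forms of degree at most `d` -/
theorem bounded' (K : Type) [Field K] [CharZero K] (G : Subgroup Kˣ) (hG : G.FG) (n d N : ℕ) :
    ∃ B : ℕ, ∀ FF : Set (MvPolynomial (Fin (n + 1)) K), (∀ F ∈ FF, ∃ e ≤ d, F.IsHomogeneous e) →
      (sparsePoints FF G N).encard ≤ B := by
  classical
  obtain ⟨B, hB⟩ := bounded K G hG n d N
  refine ⟨B, fun FF hF => ?_⟩
  choose e he hhom using hF
  set FF' : Set (MvPolynomial (Fin (n + 1)) K) :=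
    {H | ∃ (F : MvPolynomial (Fin (n + 1)) K) (hF : F ∈ FF) (i : Fin (n + 1)),
      H = MvPolynomial.X i ^ (d - e F hF) * F} with hFF'
  have h1 : ∀ {A : Type} [CommRing A] [IsDomain A] [Algebra K A] (x : Fin (n + 1) → A),
      x ≠ 0 → (∀ H ∈ FF', MvPolynomial.aeval x H = 0) → ∀ F ∈ FF, MvPolynomial.aeval x F = 0 := by
    intro A _ _ _ x hx h F hF
    obtain ⟨i, hi⟩ := Function.ne_iff.1 hx
    have h2 := h _ ⟨F, hF, i, rfl⟩
    rw [map_mul, map_pow, MvPolynomial.aeval_X] at h2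
    exact (mul_eq_zero.1 h2).resolve_left (pow_ne_zero _ hi)
  have h2 := hB FF' (by
    rintro _ ⟨F, hF, i, rfl⟩
    have h3 := ((MvPolynomial.isHomogeneous_X K i).pow (d - e F hF)).mul (hhom F hF)
    have h4 : 1 * (d - e F hF) + e F hF = d := by
      have := he F hF
      omega
    rwa [h4] at h3)
  refine (Set.encard_le_encard ?_).trans h2
  rintro P ⟨x, hx, h3, h4, h5, rfl⟩
  refine ⟨x, hx, h3, ?_, ?_, rfl⟩
  · rintro _ ⟨F, hF, i, rfl⟩
    rw [map_mul, h4 F hF, mul_zero]
  · rintro ⟨p, hp, hpx, hnc⟩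
    apply h5
    refine ⟨p, h1 p ?_ hp, hpx, hnc⟩
    rintro rfl
    apply hx
    funext i
    rw [← hpx i]
    simp

end Pool.Agent.D0H59.UB
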