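import Mathlib
import Pool.Agent.D0H59.UB.End
import Pool.Agent.TH551.HE.Rat

/-!
# Hyperelliptic curves
-/

set_option autoImplicit false

open Finset

namespace Pool.Agent.D0H59.UB

variable {K : Type} [Field K]

/-- the form `y ^ 2 z ^ (d - 2) - f(x, z)` -/
noncomputable def form (d : ℕ) (f : Polynomial K) : MvPolynomial (Fin (2 + 1)) K :=
  MvPolynomial.X 1 ^ 2 * MvPolynomial.X 2 ^ (d - 2) -
    ∑ i ∈ Finset.range (d + 1), MvPolynomial.C (f.coeff i) * MvPolynomial.X 0 ^ i *
      MvPolynomial.X 2 ^ (d - i)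

lemma form_hom (d : ℕ) (hd : 2 ≤ d) (f : Polynomial K) : (form d f).IsHomogeneous d := by
  unfold form
  refine MvPolynomial.IsHomogeneous.sub ?_ ?_
  · have h := ((MvPolynomial.isHomogeneous_X K (1 : Fin (2 + 1))).pow 2).mul
      ((MvPolynomial.isHomogeneous_X K (2 : Fin (2 + 1))).pow (d - 2))
    have h2 : 1 * 2 + 1 * (d - 2) = d := by omega
    rwa [h2] at h
  · refine MvPolynomial.IsHomogeneous.sum _ _ _ fun i hi => ?_
    have h := ((MvPolynomial.isHomogeneous_C (Fin (2 + 1)) (f.coeff i)).mul
      ((MvPolynomial.isHomogeneous_X K (0 : Fin (2 + 1))).pow i)).mul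
      ((MvPolynomial.isHomogeneous_X K (2 : Fin (2 + 1))).pow (d - i))
    have h2 : 0 + 1 * i + 1 * (d - i) = d := by
      have := Finset.mem_range.1 hi
      omega
    rwa [h2] at h

lemma form_aeval (d : ℕ) (f : Polynomial K) {A : Type} [CommRing A] [Algebra K A]
    (x : Fin (2 + 1) → A) : MvPolynomial.aeval x (form d f) =
      x 1 ^ 2 * x 2 ^ (d - 2) -
        ∑ i ∈ Finset.range (d + 1), algebraMap K A (f.coeff i) * x 0 ^ i * x 2 ^ (d - i) := by
  unfold form
  simp [map_sub, map_mul, map_sum, map_pow]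

lemma form_noCurve [CharZero K] (d : ℕ) (hd : 3 ≤ d) (f : Polynomial K) (hf : f.Separable)
    (hfd : f.natDegree = d) : NoCurve ({form d f} : Set (MvPolynomial (Fin (2 + 1)) K)) := by
  intro p hp
  have h1 := hp _ rfl
  rw [form_aeval, sub_eq_zero] at h1
  by_cases hz : p 2 = 0
  · -- the point at infinity
    have h0 : p 0 = 0 := by
      rw [hz, zero_pow (by omega), mul_zero, Finset.sum_range_succ, Nat.sub_self, pow_zero,
        mul_one] at h1
      have h2 : ∑ i ∈ Finset.range d, algebraMap K (Polynomial K) (f.coeff i) * p 0 ^ i *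
          0 ^ (d - i) = 0 := by
        refine Finset.sum_eq_zero fun i hi => ?_
        have := Finset.mem_range.1 hi
        rw [zero_pow (by omega), mul_zero]
      rw [h2, zero_add] at h1
      have h3 : f.coeff d ≠ 0 := by
        rw [← hfd]
        refine Polynomial.leadingCoeff_ne_zero.2 ?_
        rintro rfl
        rw [Polynomial.natDegree_zero] at hfd
        omega
      have h4 := (mul_eq_zero.1 h1.symm).resolve_left (fun h =>
        h3 ((FaithfulSMul.algebraMap_eq_zero_iff K (Polynomial K)).1 h))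
      exact (pow_eq_zero_iff (by omega)).1 h4
    refine ⟨![0, 1, 0], p 1, fun i => ?_⟩
    fin_cases i
    · simpa using h0
    · simp
    · simpa using hz
  · obtain ⟨c, c', h2, h3⟩ := Pool.Agent.TH551.HE.no_param K f hf (by omega) (p 0) (p 2) (p 1) hz (by
      rw [hfd, h1]
      rfl)
    refine ⟨![c, c', 1], p 2, fun i => ?_⟩
    fin_cases i
    · simpa using h2
    · simpa using h3
    · simp

/-- hyperelliptic curves -/
theorem hyper (K : Type) [Field K] [CharZero K] (G : Subgroup Kˣ) (hG : G.FG) (N : ℕ) (d : ℕ)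
    (hd : 3 ≤ d) : ∃ B : ℕ, ∀ f : Polynomial K, f.Separable → f.natDegree = d →
      {Q : K × K | Q.2 ^ 2 = f.eval Q.1 ∧ ∃ a b c : K, c ≠ 0 ∧ IsSum G N a ∧ IsSum G N b ∧
        IsSum G N c ∧ Q.1 = a / c ∧ Q.2 = b / c}.encard ≤ B := by
  classical
  obtain ⟨B, hB⟩ := bounded K G hG 2 d N
  refine ⟨B, fun f hf hfd => ?_⟩
  refine le_trans ?_ (hB {form d f} (by
    rintro F rfl
    exact form_hom d (by omega) f))
  have hv : ∀ Q : K × K, (![Q.1, Q.2, 1] : Fin (2 + 1) → K) ≠ 0 := by
    intro Q h
    have := congrFun h 2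
    simp at this
  refine Set.encard_le_encard_of_injOn
    (f := fun Q : K × K => Projectivization.mk K (![Q.1, Q.2, 1] : Fin (2 + 1) → K) (hv Q)) ?_ ?_
  · rintro Q ⟨hQ, a, b, c, hc, ha, hb, hc', h1, h2⟩
    refine ⟨![a, b, c], ?_, ?_, ?_, (form_noCurve d hd f hf hfd).not_onCurve _, ?_⟩
    · intro h
      have := congrFun h 2
      simp at this
      exact hc this
    · intro i
      fin_cases i
      · exact ha
      · exact hb
      · exact hc'
    · rintro F rfl
      rw [form_aeval]
      simp only [Algebra.algebraMap_self, RingHom.id_apply]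
      have h3 : (![a, b, c] : Fin (2 + 1) → K) 0 = a := rfl
      have h4 : (![a, b, c] : Fin (2 + 1) → K) 1 = b := rfl
      have h5 : (![a, b, c] : Fin (2 + 1) → K) 2 = c := rfl
      rw [h3, h4, h5]
      have ha' : a = Q.1 * c := by rw [h1]; field_simp
      have hb' : b = Q.2 * c := by rw [h2]; field_simp
      have h6 : ∑ i ∈ Finset.range (d + 1), f.coeff i * a ^ i * c ^ (d - i) =
          c ^ d * f.eval Q.1 := by
        rw [Polynomial.eval_eq_sum_range, hfd, Finset.mul_sum]
        refine Finset.sum_congr rfl fun i hi => ?_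
        have h7 := Finset.mem_range.1 hi
        have h8 : c ^ d = c ^ i * c ^ (d - i) := by
          rw [← pow_add]
          congr 1
          omega
        rw [ha', h8, mul_pow]
        ring
      rw [h6, ← hQ, hb']
      have h8 : c ^ d = c ^ 2 * c ^ (d - 2) := by
        rw [← pow_add]
        congr 1
        omega
      rw [h8]
      ring
    · rw [Projectivization.mk_eq_mk_iff']
      refine ⟨c⁻¹, ?_⟩
      funext i
      fin_cases i
      · simp only [Pi.smul_apply, smul_eq_mul]
        show c⁻¹ * a = Q.1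
        rw [h1]
        field_simp
      · simp only [Pi.smul_apply, smul_eq_mul]
        show c⁻¹ * b = Q.2
        rw [h2]
        field_simp
      · simp only [Pi.smul_apply, smul_eq_mul]
        show c⁻¹ * c = 1
        exact inv_mul_cancel₀ hc
  · intro Q _ Q' _ h
    have h1 := (Projectivization.mk_eq_mk_iff' K _ _ (hv Q) (hv Q')).1 h
    obtain ⟨a, ha⟩ := h1
    have h2 := congrFun ha 2
    have h3 := congrFun ha 0
    have h4 := congrFun ha 1
    simp at h2 h3 h4
    rw [h2] at h3 h4
    simp at h3 h4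
    exact Prod.ext h3.symm h4.symm

end Pool.Agent.D0H59.UB
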